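import Pool.Agent.Helper67.BT.Stmts

open Finset MeasureTheory

namespace Pool.Agent.Helper67.BT

theorem gb_cs {n k : ℕ} (c : Cfg n k) (a : Fin n → ℝ) :
    (∑ i, c.s i * a i) ^ 2 ≤ k * ∑ i, c.s i * a i ^ 2 := by
  have h := Finset.sum_mul_sq_le_sq_mul_sq (Finset.univ : Finset (Fin n))
    (fun i => Real.sqrt (c.s i)) (fun i => Real.sqrt (c.s i) * a i)
  have h1 : ∀ i, Real.sqrt (c.s i) * (Real.sqrt (c.s i) * a i) = c.s i * a i := by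
    intro i
    rw [← mul_assoc, Real.mul_self_sqrt (c.s0 i)]
  have h2 : ∀ i, Real.sqrt (c.s i) ^ 2 = c.s i := fun i => Real.sq_sqrt (c.s0 i)
  have h3 : ∀ i, (Real.sqrt (c.s i) * a i) ^ 2 = c.s i * a i ^ 2 := by
    intro i
    rw [mul_pow, h2]
  rw [Finset.sum_congr rfl fun i _ => h1 i, Finset.sum_congr rfl fun i _ => h2 i,
    Finset.sum_congr rfl fun i _ => h3 i, sum_s] at h
  exact h

theorem gb_pt (h1 : ST_PT) {n k : ℕ} (c : Cfg n k) {p : ℝ} (hp : 2 < p) (hp3 : p ≤ 3)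
    (f : Fin n → E k) (x : E k) :
    (∑ i, c.s i * (om p (c.z i x) * c.z i x) * inner ℝ (f i) x) ^ 2 ≤
      ((p - 2) ^ 2 * (k * ∑ i, c.s i * ‖f i‖ ^ 2)) * (1 + ‖x‖) ^ 6 := by
  have hr := norm_nonneg x
  have hA : |∑ i, c.s i * (om p (c.z i x) * c.z i x) * inner ℝ (f i) x| ≤
      ((p - 2) * (1 + ‖x‖) ^ 3) * ∑ i, c.s i * ‖f i‖ := by
    refine (Finset.abs_sum_le_sum_abs _ _).trans ?_
    rw [Finset.mul_sum]
    refine Finset.sum_le_sum fun i _ => ?_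
    have e1 := (h1 p (c.z i x) 0 0 hp hp3).1
    have e2 := z_le c i x
    have e3 := abs_real_inner_le_norm (f i) x
    have e4 : (1 + |c.z i x|) ^ 2 ≤ (1 + ‖x‖) ^ 2 := by
      have := abs_nonneg (c.z i x)
      exact pow_le_pow_left₀ (by linarith) (by linarith) 2
    have e5 : |om p (c.z i x) * c.z i x| ≤ (p - 2) * (1 + ‖x‖) ^ 2 :=
      e1.trans (mul_le_mul_of_nonneg_left e4 (by linarith))
    have e6 : |inner ℝ (f i) x| ≤ ‖f i‖ * (1 + ‖x‖) :=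
      e3.trans (mul_le_mul_of_nonneg_left (by linarith) (norm_nonneg _))
    rw [abs_mul, abs_mul, abs_of_nonneg (c.s0 i)]
    have e7 : |om p (c.z i x) * c.z i x| * |inner ℝ (f i) x| ≤
        ((p - 2) * (1 + ‖x‖) ^ 2) * (‖f i‖ * (1 + ‖x‖)) :=
      mul_le_mul e5 e6 (abs_nonneg _) (mul_nonneg (by linarith) (by positivity))
    calc c.s i * |om p (c.z i x) * c.z i x| * |inner ℝ (f i) x|
        = c.s i * (|om p (c.z i x) * c.z i x| * |inner ℝ (f i) x|) := by ring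
      _ ≤ c.s i * (((p - 2) * (1 + ‖x‖) ^ 2) * (‖f i‖ * (1 + ‖x‖))) :=
          mul_le_mul_of_nonneg_left e7 (c.s0 i)
      _ = _ := by ring
  have hB := gb_cs c fun i => ‖f i‖
  calc (∑ i, c.s i * (om p (c.z i x) * c.z i x) * inner ℝ (f i) x) ^ 2
      = |∑ i, c.s i * (om p (c.z i x) * c.z i x) * inner ℝ (f i) x| ^ 2 := (sq_abs _).symm
    _ ≤ (((p - 2) * (1 + ‖x‖) ^ 3) * ∑ i, c.s i * ‖f i‖) ^ 2 :=
        pow_le_pow_left₀ (abs_nonneg _) hA 2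
    _ = ((p - 2) ^ 2 * (1 + ‖x‖) ^ 6) * (∑ i, c.s i * ‖f i‖) ^ 2 := by ring
    _ ≤ ((p - 2) ^ 2 * (1 + ‖x‖) ^ 6) * (k * ∑ i, c.s i * ‖f i‖ ^ 2) :=
        mul_le_mul_of_nonneg_left hB (by positivity)
    _ = _ := by ring

theorem gb_PG1 {n k : ℕ} (c : Cfg n k) {p : ℝ} (hp : 2 ≤ p) (f : Fin n → E k) :
    PG fun x => (∑ i, c.s i * (om p (c.z i x) * c.z i x) * inner ℝ (f i) x) ^ 2 :=
  PG_pow (PG_sum _ fun i _ => PG_mul (PG_const_mul _ (PG_mul (PG_om (PG_z c i) hp) (PG_z c i)))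
    (PG_inner _)) 2

theorem st_GB (h1 : ST_PT) : ST_GB := by
  intro k
  obtain ⟨K0, hK0, hK⟩ := exists_K k 6
  refine ⟨(k + 1) * K0, ?_, fun n c p f hp hp3 => ?_⟩
  · have : (0 : ℝ) ≤ k := by positivity
    nlinarith
  have hS : 0 ≤ ∑ i, c.s i * ‖f i‖ ^ 2 :=
    Finset.sum_nonneg fun i _ => mul_nonneg (c.s0 i) (sq_nonneg _)
  have hk : (0 : ℝ) ≤ k := by positivity
  refine (av_mono c hp.le hp3 (gb_PG1 c hp.le f)
    (PG_const_mul _ (PG_pow (PG_add (PG_const 1) PG_norm) 6))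
    (gb_pt h1 c hp hp3 f)).trans ?_
  rw [av_const_mul]
  have h2 := hK n c p hp.le hp3
  calc ((p - 2) ^ 2 * (k * ∑ i, c.s i * ‖f i‖ ^ 2)) * av c p (fun x => (1 + ‖x‖) ^ 6)
      ≤ ((p - 2) ^ 2 * (k * ∑ i, c.s i * ‖f i‖ ^ 2)) * K0 :=
        mul_le_mul_of_nonneg_left h2 (by positivity)
    _ = (k * K0) * ((p - 2) ^ 2 * ∑ i, c.s i * ‖f i‖ ^ 2) := by ring
    _ ≤ ((k + 1) * K0) * ((p - 2) ^ 2 * ∑ i, c.s i * ‖f i‖ ^ 2) := by
        refine mul_le_mul_of_nonneg_right ?_ (by positivity)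
        nlinarith
    _ = _ := by ring

end Pool.Agent.Helper67.BT
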